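import Pool.Agent.H79.MC.Targets2

/-!
Module GOD: graphs with few near-optimal cuts are good.
-/

set_option autoImplicit false

namespace Pool.Agent.H60.MC

open Finset Pool.Agent.H79.MC

namespace GOD

theorem bits_le (X i : ℕ) : bits X i ≤ 1 := by
  unfold bits
  omega

theorem bits_low {y b r i : ℕ} (hi : i < b) : bits (y * 2 ^ b + r) i = bits r i := by
  unfold bits
  obtain ⟨k, rfl⟩ : ∃ k, b = i + 1 + k := ⟨b - (i + 1), by omega⟩
  have h1 : y * 2 ^ (i + 1 + k) + r = 2 ^ i * (2 * (y * 2 ^ k)) + r := by ring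
  rw [h1, Nat.mul_add_div (by positivity)]
  omega

theorem bits_high {y b r i : ℕ} (hr : r < 2 ^ b) (hi : b ≤ i) :
    bits (y * 2 ^ b + r) i = bits y (i - b) := by
  unfold bits
  obtain ⟨k, rfl⟩ : ∃ k, i = b + k := ⟨i - b, by omega⟩
  have h1 : (y * 2 ^ b + r) / 2 ^ b = y := by
    rw [mul_comm, Nat.mul_add_div (by positivity), Nat.div_eq_of_lt hr, add_zero]
  rw [pow_add, ← Nat.div_div_eq_div_mul, h1, Nat.add_sub_cancel_left]

theorem bits_mod {X b i : ℕ} (hi : i < b) : bits (X % 2 ^ b) i = bits X i := by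
  have h1 : X = X / 2 ^ b * 2 ^ b + X % 2 ^ b := (Nat.div_add_mod' X _).symm
  conv_rhs => rw [h1]
  rw [bits_low hi]

theorem bits_div {X b i : ℕ} (hi : b ≤ i) : bits X i = bits (X / 2 ^ b) (i - b) := by
  have h1 : X = X / 2 ^ b * 2 ^ b + X % 2 ^ b := (Nat.div_add_mod' X _).symm
  conv_lhs => rw [h1]
  rw [bits_high (Nat.mod_lt _ (by positivity)) hi]

theorem exists_bits (n : ℕ) (f : ℕ → ℕ) (hf : ∀ i, f i ≤ 1) :
    ∃ X < 2 ^ n, ∀ i < n, bits X i = f i := by
  induction n with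
  | zero => exact ⟨0, by simp, by simp⟩
  | succ n ih =>
    obtain ⟨X, hX, h⟩ := ih
    refine ⟨f n * 2 ^ n + X, ?_, ?_⟩
    · have h1 : f n * 2 ^ n ≤ 1 * 2 ^ n := Nat.mul_le_mul_right _ (hf n)
      rw [pow_succ]
      omega
    · intro i hi
      rcases Nat.lt_or_ge i n with h1 | h1
      · rw [bits_low h1, h i h1]
      · have h2 : i = n := by omega
        subst h2
        rw [bits_high hX le_rfl, Nat.sub_self]
        unfold bits
        have := hf i
        rw [pow_zero, Nat.div_one]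
        omega

theorem bits_inj {n X Y : ℕ} (hX : X < 2 ^ n) (hY : Y < 2 ^ n) (h : ∀ i < n, bits X i = bits Y i) :
    X = Y := by
  apply Nat.eq_of_testBit_eq
  intro i
  rcases Nat.lt_or_ge i n with h1 | h1
  · rw [Nat.testBit_eq_decide_div_mod_eq, Nat.testBit_eq_decide_div_mod_eq]
    have := h i h1
    unfold bits at this
    rw [this]
  · rw [Nat.testBit_lt_two_pow (hX.trans_le (Nat.pow_le_pow_right (by norm_num) h1)),
      Nat.testBit_lt_two_pow (hY.trans_le (Nat.pow_le_pow_right (by norm_num) h1))]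

theorem testF_congr {a q n : ℕ} {A : ℕ → ℕ → ℕ} {j g : ℕ} {x x' : ℕ → ℕ}
    (h : ∀ i, 2 ^ a * q ≤ i → i < n → x i = x' i) :
    testF a q n A j g x = testF a q n A j g x' := by
  unfold testF
  refine sum_congr rfl fun i hi => sum_congr rfl fun i' hi' => ?_
  rw [mem_range] at hi hi'
  by_cases h1 : 2 ^ a * q ≤ i
  · rw [h i h1 hi]
    by_cases h2 : 2 ^ a * q ≤ i'
    · rw [h i' h2 hi']
    · rw [if_neg h2]
      simp
  · rw [if_neg h1]
    simp

theorem rot_idx {n j i : ℕ} (hj : j < n) (hi : i < n) : ((i + j) % n + (n - j)) % n = i := by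
  rw [Nat.mod_add_mod, show i + j + (n - j) = i + n by omega, Nat.add_mod_right,
    Nat.mod_eq_of_lt hi]

theorem rot_idx' {n j v : ℕ} (hj : j < n) (hv : v < n) : ((v + (n - j)) % n + j) % n = v := by
  rw [Nat.mod_add_mod, show v + (n - j) + j = v + n by omega, Nat.add_mod_right,
    Nat.mod_eq_of_lt hv]

/-- the set of vertices of a cut given by positions -/
def SV {n : ℕ} (j : ℕ) (x : ℕ → ℕ) : Set (Fin n) := {v : Fin n | x ((v + (n - j)) % n) ≠ 0}

theorem val_cut (hLNK : T_LNK) (hROT : T_ROT) {n : ℕ} (G : SimpleGraph (Fin n)) {j : ℕ}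
    (hj : j < n) (x : ℕ → ℕ) (hx : ∀ i, x i ≤ 1) :
    valF n (adjN G) j x + 2 * cutSize G (SV j x) = 2 * edges G := by
  have h1 := hROT n (adjN G) j x (fun v => x ((v + (n - j)) % n)) hj (fun i hi => by
    rw [rot_idx hj hi])
  rw [← h1]
  exact hLNK n G (fun v => x ((v + (n - j)) % n)) (fun v _ => hx _)

theorem adjN_le {n : ℕ} (G : SimpleGraph (Fin n)) (u v : ℕ) : adjN G u v ≤ 1 := by
  unfold adjN
  split_ifs <;> omega

theorem adjN_symm {n : ℕ} (G : SimpleGraph (Fin n)) (u v : ℕ) : adjN G u v = adjN G v u := by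
  unfold adjN
  have h1 : (∃ (hu : u < n) (hv : v < n), G.Adj ⟨u, hu⟩ ⟨v, hv⟩) ↔
      ∃ (hu : v < n) (hv : u < n), G.Adj ⟨v, hu⟩ ⟨u, hv⟩ :=
    ⟨fun ⟨a, b, h⟩ => ⟨b, a, h.symm⟩, fun ⟨a, b, h⟩ => ⟨b, a, h.symm⟩⟩
  by_cases h : ∃ (hu : u < n) (hv : v < n), G.Adj ⟨u, hu⟩ ⟨v, hv⟩
  · rw [if_pos h, if_pos (h1.1 h)]
  · rw [if_neg h, if_neg (fun h2 => h (h1.2 h2))]

theorem deg_sum (hLNK : T_LNK) {n : ℕ} (G : SimpleGraph (Fin n)) :
    ∑ u ∈ range n, ∑ v ∈ range n, adjN G u v = 2 * edges G := by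
  have h1 := hLNK n G (fun _ => 0) (fun _ _ => zero_le_one)
  have h2 : cutSize G {v : Fin n | (fun _ : ℕ => 0) (v : ℕ) ≠ 0} = 0 := by
    unfold cutSize
    have : {e | e ∈ G.edgeSet ∧ ∃ u ∈ {v : Fin n | (fun _ : ℕ => 0) (v : ℕ) ≠ 0},
        ∃ v ∉ {v : Fin n | (fun _ : ℕ => 0) (v : ℕ) ≠ 0}, e = s(u, v)} = ∅ := by
      ext e
      simp
    rw [this, Set.ncard_empty]
  rw [h2, mul_zero, add_zero] at h1
  rw [← h1]
  unfold valF
  refine sum_congr rfl fun i hi => sum_congr rfl fun i' hi' => ?_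
  rw [mem_range] at hi hi'
  rw [if_pos rfl, mul_one, add_zero, add_zero, Nat.mod_eq_of_lt hi, Nat.mod_eq_of_lt hi']

/-- the sum over a full turn -/
theorem sum_rot {n : ℕ} {j : ℕ} (hj : j < n) (f : ℕ → ℝ) :
    ∑ i ∈ range n, f ((i + j) % n) = ∑ v ∈ range n, f v := by
  refine sum_nbij' (fun i => (i + j) % n) (fun v => (v + (n - j)) % n) ?_ ?_ ?_ ?_ ?_
  · intro i _
    exact mem_range.2 (Nat.mod_lt _ (by omega))
  · intro i _
    exact mem_range.2 (Nat.mod_lt _ (by omega))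
  · intro i hi
    exact rot_idx hj (mem_range.1 hi)
  · intro i hi
    exact rot_idx' hj (mem_range.1 hi)
  · intro i _
    rfl

/-- Cauchy-Schwarz -/
theorem sum_sqrt_le {ι : Type*} (s : Finset ι) (f : ι → ℝ) (hf : ∀ i ∈ s, 0 ≤ f i) :
    ∑ i ∈ s, Real.sqrt (f i) ≤ Real.sqrt (s.card * ∑ i ∈ s, f i) := by
  apply Real.le_sqrt_of_sq_le
  have h1 := sum_mul_sq_le_sq_mul_sq s (fun _ => (1 : ℝ)) (fun i => Real.sqrt (f i))
  simp only [one_mul, one_pow, sum_const, nsmul_eq_mul, mul_one] at h1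
  refine h1.trans (le_of_eq ?_)
  congr 1
  exact sum_congr rfl fun i hi => Real.sq_sqrt (hf i hi)

end GOD

open GOD in
/-- module GOD -/
theorem pf_god (hLNK : T_LNK) (hMCB : T_MCB) (hWIN : T_WIN) (hENC : T_ENC) (hSMP : T_SMP)
    (hEST : T_EST) (hBNS : T_BNS) (hROT : T_ROT) : T_GOD := by
  classical
  intro η c hη hc
  refine ⟨⌈8192 / η ^ 2⌉₊ + ⌈128 / c⌉₊, ?_⟩
  intro Γ hΓ hΓ64 n G hn hF
  have hΓ0 : 0 < Γ := by omega
  have hΓR : (0 : ℝ) < Γ := by exact_mod_cast hΓ0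
  have hΓ1 : 8192 / η ^ 2 ≤ Γ := by
    have h1 : 8192 / η ^ 2 ≤ (⌈8192 / η ^ 2⌉₊ : ℝ) := Nat.le_ceil _
    have h2 : ((⌈8192 / η ^ 2⌉₊ + ⌈128 / c⌉₊ : ℕ) : ℝ) ≤ Γ := by exact_mod_cast hΓ
    push_cast at h2
    have h3 : (0 : ℝ) ≤ (⌈128 / c⌉₊ : ℝ) := Nat.cast_nonneg _
    linarith
  have hΓ2 : 128 / c ≤ Γ := by
    have h1 : 128 / c ≤ (⌈128 / c⌉₊ : ℝ) := Nat.le_ceil _
    have h2 : ((⌈8192 / η ^ 2⌉₊ + ⌈128 / c⌉₊ : ℕ) : ℝ) ≤ Γ := by exact_mod_cast hΓ
    push_cast at h2
    have h3 : (0 : ℝ) ≤ (⌈8192 / η ^ 2⌉₊ : ℝ) := Nat.cast_nonneg _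
    linarith
  obtain ⟨q, hq⟩ : ∃ q, q = n / Γ := ⟨_, rfl⟩
  rw [← hq]
  obtain ⟨b, hb⟩ : ∃ b, b = 2 ^ 6 * q := ⟨_, rfl⟩
  have hbΓ : b * Γ ≤ 64 * n := by
    rw [hb, hq]
    have := Nat.div_mul_le_self n Γ
    calc 2 ^ 6 * (n / Γ) * Γ = 64 * (n / Γ * Γ) := by ring
      _ ≤ 64 * n := Nat.mul_le_mul_left _ this
  have hbn : b ≤ n := by
    by_contra hcon
    push Not at hcon
    have h1 : n * 64 < b * Γ := by
      calc n * 64 < b * 64 := by omega
        _ ≤ b * Γ := Nat.mul_le_mul_left _ hΓ64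
    omega
  have hbΓR : (b : ℝ) * Γ ≤ 64 * n := by exact_mod_cast hbΓ
  have hnR : (0 : ℝ) < n := by exact_mod_cast hn
  have hb0 : (0 : ℝ) ≤ b := Nat.cast_nonneg _
  -- 128 b ≤ η² n, 2 b ≤ c n
  have hbη : 128 * (b : ℝ) ≤ η ^ 2 * n := by
    have h1 : 8192 ≤ Γ * η ^ 2 := by
      rwa [div_le_iff₀ (by positivity)] at hΓ1
    have h2 : 128 * (b : ℝ) * Γ ≤ η ^ 2 * n * Γ := by nlinarith
    exact le_of_mul_le_mul_right h2 hΓR
  have hbc : 2 * (b : ℝ) ≤ c * n := by
    have h1 : 128 ≤ Γ * c := by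
      rwa [div_le_iff₀ hc] at hΓ2
    have h2 : 2 * (b : ℝ) * Γ ≤ c * n * Γ := by nlinarith
    exact le_of_mul_le_mul_right h2 hΓR
  obtain ⟨A, hA⟩ : ∃ A, A = adjN G := ⟨_, rfl⟩
  have hA1 : ∀ u v, A u v ≤ 1 := by rw [hA]; exact adjN_le G
  have hAs : ∀ u v, A u v = A v u := by rw [hA]; exact adjN_symm G
  rw [← hA]
  obtain ⟨w, hw⟩ : ∃ w : ℕ → ℝ, w = fun v => ∑ u ∈ range n, (A u v : ℝ) := ⟨_, rfl⟩
  obtain ⟨j, hj, hwin⟩ := hWIN n b w hn
  have hdeg : ∑ v ∈ range n, w v = 2 * edges G := by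
    have h1 := deg_sum hLNK G
    rw [← hA] at h1
    rw [hw, sum_comm]
    exact_mod_cast h1
  obtain ⟨hmc1, ⟨X0, hX0⟩, -⟩ := hMCB n G
  -- the number of the maximum cut
  obtain ⟨X, hXn, hX⟩ := exists_bits n (fun i =>
    if ∃ h : (i + j) % n < n, (⟨(i + j) % n, h⟩ : Fin n) ∈ X0 then 1 else 0)
    (fun i => by split_ifs <;> omega)
  have hStX : SV j (bits X) = X0 := by
    ext v
    unfold SV
    rw [Set.mem_setOf_eq, hX _ (Nat.mod_lt _ (by omega))]
    simp only [rot_idx' hj v.2, v.2]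
    simp
  have hvX := val_cut hLNK hROT G hj (bits X) (bits_le X)
  rw [hStX, hX0, ← hA] at hvX
  obtain ⟨z, hz⟩ : ∃ z, z = bits X := ⟨_, rfl⟩
  have hz1 : ∀ i, z i ≤ 1 := by rw [hz]; exact bits_le X
  -- the sample
  obtain ⟨p, hp, hsmp⟩ := hSMP q (2 ^ 6) (Ico b n)
    (fun u v => (A ((u + j) % n) ((v + j) % n) : ℝ) * (2 * (z v : ℝ) - 1)) (by norm_num)
  obtain ⟨g, hg, hgp⟩ := hENC 6 q p (fun t => z (2 ^ 6 * t + p t)) hp (fun t => hz1 _)
  obtain ⟨err, herr⟩ : ∃ err : ℝ, err = ∑ u ∈ Ico b n,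
      |∑ v ∈ range (2 ^ 6 * q), (A ((u + j) % n) ((v + j) % n) : ℝ) * (2 * (z v : ℝ) - 1) -
        (2 : ℝ) ^ 6 * ∑ t ∈ range q,
          (A ((u + j) % n) ((2 ^ 6 * t + bPos 6 g t + j) % n) : ℝ) *
            (2 * (z (2 ^ 6 * t + bPos 6 g t) : ℝ) - 1)| := ⟨_, rfl⟩
  have herr1 : err ≤ ∑ u ∈ Ico b n, Real.sqrt (64 * ∑ v ∈ range b,
      (A ((u + j) % n) ((v + j) % n) : ℝ)) := by
    refine le_trans (le_of_eq ?_) (hsmp.trans (le_of_eq ?_))
    · rw [herr]
      refine sum_congr rfl fun u _ => ?_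
      have h1 : ∑ t ∈ range q, (A ((u + j) % n) ((2 ^ 6 * t + bPos 6 g t + j) % n) : ℝ) *
            (2 * (z (2 ^ 6 * t + bPos 6 g t) : ℝ) - 1) =
          ∑ t ∈ range q, (A ((u + j) % n) ((2 ^ 6 * t + p t + j) % n) : ℝ) *
            (2 * (z (2 ^ 6 * t + p t) : ℝ) - 1) :=
        sum_congr rfl fun t ht => by rw [(hgp t (mem_range.1 ht)).1]
      rw [h1, Nat.cast_pow, Nat.cast_ofNat]
    · refine sum_congr rfl fun u _ => ?_
      have h1 : ∑ v ∈ range (2 ^ 6 * q), ((A ((u + j) % n) ((v + j) % n) : ℝ) *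
          (2 * (z v : ℝ) - 1)) ^ 2 = ∑ v ∈ range (2 ^ 6 * q), (A ((u + j) % n) ((v + j) % n) : ℝ) := by
        refine sum_congr rfl fun v _ => ?_
        have h1 := hA1 ((u + j) % n) ((v + j) % n)
        have h2 := hz1 v
        interval_cases A ((u + j) % n) ((v + j) % n) <;> interval_cases z v <;> norm_num
      rw [h1, hb, Nat.cast_pow, Nat.cast_ofNat]
      norm_num
  have hvol : ∑ u ∈ Ico b n, ∑ v ∈ range b, (A ((u + j) % n) ((v + j) % n) : ℝ) ≤
      ∑ i ∈ range b, w ((i + j) % n) := by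
    rw [sum_comm]
    refine sum_le_sum fun v _ => ?_
    rw [hw]
    simp only
    rw [← sum_rot hj (fun u => (A u ((v + j) % n) : ℝ))]
    refine sum_le_sum_of_subset_of_nonneg ?_ (fun _ _ _ => Nat.cast_nonneg _)
    intro u hu
    rw [mem_Ico] at hu
    exact mem_range.2 hu.2
  have herr2 : err ≤ η * Real.sqrt (edges G * n) := by
    refine herr1.trans ((sum_sqrt_le _ _ (fun u _ => by positivity)).trans ?_)
    rw [← Real.sqrt_sq hη.le, ← Real.sqrt_mul (by positivity)]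
    apply Real.sqrt_le_sqrt
    rw [← mul_sum]
    have h1 : ((Ico b n).card : ℝ) ≤ n := by
      rw [Nat.card_Ico]
      exact_mod_cast Nat.sub_le _ _
    have h2 : 0 ≤ ∑ u ∈ Ico b n, ∑ v ∈ range b, (A ((u + j) % n) ((v + j) % n) : ℝ) := by
      positivity
    have h3 : (0 : ℝ) ≤ edges G := Nat.cast_nonneg _
    calc ((Ico b n).card : ℝ) * (64 * ∑ u ∈ Ico b n, ∑ v ∈ range b,
          (A ((u + j) % n) ((v + j) % n) : ℝ))
        ≤ n * (64 * ∑ i ∈ range b, w ((i + j) % n)) := by gcongr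
      _ = 64 * (n * ∑ i ∈ range b, w ((i + j) % n)) := by ring
      _ ≤ 64 * (b * ∑ v ∈ range n, w v) := by gcongr
      _ = (128 * (b : ℝ)) * edges G := by rw [hdeg]; ring
      _ ≤ (η ^ 2 * n) * edges G := by gcongr
      _ = η ^ 2 * (edges G * n) := by ring
  -- the estimate
  have hest := hEST 6 q n A j g z (by rw [← hb]; exact hbn) hA1 hAs (fun i _ => hz1 i)
    (fun t ht => by rw [(hgp t ht).1]; exact (hgp t ht).2)
  rw [← hb] at hest herr
  refine ⟨j, hj, g, ?_, testF 6 q n A j g z, (hBNS 6 q n A j g z hA1).2, ?_, X, hXn, ?_, ?_⟩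
  · exact hg
  · -- the cost
    rw [← hb]
    obtain ⟨K, hK⟩ : ∃ K : Finset ℕ, K = (range (2 ^ (n - b))).filter
        fun y => Kept 6 q n A j g (testF 6 q n A j g z) y := ⟨_, rfl⟩
    have hKb : K.card ≤ 2 ^ (n - 2 * b) ∧ 2 * b ≤ n := by
      -- each kept high part gives a near-optimal cut
      have hnear : ∀ y ∈ K, (maxCut G : ℝ) - η * Real.sqrt (edges G * n) ≤
          cutSize G (SV j (bits (y * 2 ^ b + X % 2 ^ b))) := by
        intro y hy
        rw [hK, mem_filter] at hy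
        have hr : X % 2 ^ b < 2 ^ b := Nat.mod_lt _ (by positivity)
        have h1 := hest (bits (y * 2 ^ b + X % 2 ^ b)) (fun i _ => bits_le _ i) (fun i hi => by
          rw [bits_low hi, bits_mod hi, hz])
        rw [← herr] at h1
        have h2 : testF 6 q n A j g (bits (y * 2 ^ b + X % 2 ^ b)) ≤ testF 6 q n A j g z := by
          have h3 := hy.2
          unfold Kept at h3
          rw [← hb] at h3
          refine le_trans (le_of_eq ?_) h3
          apply testF_congr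
          intro i hi _
          rw [← hb] at hi
          rw [bits_high hr hi, show y * 2 ^ b = y * 2 ^ b + 0 by ring,
            bits_high (by positivity) hi]
        have h3 := val_cut hLNK hROT G hj (bits (y * 2 ^ b + X % 2 ^ b)) (bits_le _)
        rw [← hA] at h3
        have h4 : ((valF n A j (bits (y * 2 ^ b + X % 2 ^ b)) : ℕ) : ℝ) +
            2 * cutSize G (SV j (bits (y * 2 ^ b + X % 2 ^ b))) = 2 * edges G := by
          exact_mod_cast h3
        have h5 : ((valF n A j z : ℕ) : ℝ) + 2 * maxCut G = 2 * edges G := by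
          rw [hz]
          exact_mod_cast hvX
        have h6 : ((testF 6 q n A j g (bits (y * 2 ^ b + X % 2 ^ b)) : ℕ) : ℝ) ≤
            testF 6 q n A j g z := by exact_mod_cast h2
        linarith
      have hfin : ({X : Set (Fin n) | (maxCut G : ℝ) - η * Real.sqrt (edges G * n) ≤
          cutSize G X}).Finite := Set.toFinite _
      have hcard : (K.card : ℝ) ≤ 2 ^ ((1 - c) * n) := by
        refine le_trans ?_ hF
        have h1 := Set.ncard_le_ncard_of_injOn (s := (K : Set ℕ))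
          (t := {X : Set (Fin n) | (maxCut G : ℝ) - η * Real.sqrt (edges G * n) ≤ cutSize G X})
          (fun y => (SV j (bits (y * 2 ^ b + X % 2 ^ b)) : Set (Fin n)))
          (fun y hy => hnear y (by exact_mod_cast hy)) (by
            intro y hy y' hy' heq
            have hr : X % 2 ^ b < 2 ^ b := Nat.mod_lt _ (by positivity)
            have hyn : ∀ y ∈ K, y * 2 ^ b + X % 2 ^ b < 2 ^ n := by
              intro y hy
              rw [hK, mem_filter, mem_range] at hy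
              have h2 : 2 ^ n = 2 ^ (n - b) * 2 ^ b := by rw [← pow_add]; congr 1; omega
              rw [h2]
              calc y * 2 ^ b + X % 2 ^ b < y * 2 ^ b + 2 ^ b := by omega
                _ = (y + 1) * 2 ^ b := by ring
                _ ≤ 2 ^ (n - b) * 2 ^ b := Nat.mul_le_mul_right _ hy.1
            have h2 : y * 2 ^ b + X % 2 ^ b = y' * 2 ^ b + X % 2 ^ b := by
              apply bits_inj (hyn y (by exact_mod_cast hy)) (hyn y' (by exact_mod_cast hy'))
              intro i hi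
              have h3 : (⟨(i + j) % n, Nat.mod_lt _ (by omega)⟩ : Fin n) ∈
                  (SV j (bits (y * 2 ^ b + X % 2 ^ b)) : Set (Fin n)) ↔
                  (⟨(i + j) % n, Nat.mod_lt _ (by omega)⟩ : Fin n) ∈
                  (SV j (bits (y' * 2 ^ b + X % 2 ^ b)) : Set (Fin n)) := by
                have h4 : (SV j (bits (y * 2 ^ b + X % 2 ^ b)) : Set (Fin n)) =
                  SV j (bits (y' * 2 ^ b + X % 2 ^ b)) := heq
                rw [h4]
              unfold SV at h3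
              rw [Set.mem_setOf_eq, Set.mem_setOf_eq] at h3
              simp only [rot_idx hj hi] at h3
              have h5 := bits_le (y * 2 ^ b + X % 2 ^ b) i
              have h6 := bits_le (y' * 2 ^ b + X % 2 ^ b) i
              omega
            have h3 : y * 2 ^ b = y' * 2 ^ b := by omega
            exact Nat.eq_of_mul_eq_mul_right (by positivity) h3) hfin
        rw [Set.ncard_coe_finset] at h1
        exact_mod_cast h1
      have h1 : (1 : ℝ) ≤ 2 ^ ((1 - c) * n) := by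
        refine le_trans ?_ hF
        have h2 : 0 < ({X : Set (Fin n) | (maxCut G : ℝ) - η * Real.sqrt (edges G * n) ≤
            cutSize G X}).ncard := by
          rw [Set.ncard_pos hfin]
          refine ⟨X0, ?_⟩
          rw [Set.mem_setOf_eq, hX0]
          have : 0 ≤ η * Real.sqrt (edges G * n) := by positivity
          linarith
        exact_mod_cast h2
      have h2 : 0 ≤ (1 - c) * n := by
        by_contra hcon
        push Not at hcon
        have := Real.rpow_lt_one_of_one_lt_of_neg (x := 2) (by norm_num) hcon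
        linarith
      have h3 : 2 * b ≤ n := by
        have : 2 * (b : ℝ) ≤ n := by nlinarith
        exact_mod_cast this
      refine ⟨?_, h3⟩
      have h4 : (K.card : ℝ) ≤ (2 : ℝ) ^ (n - 2 * b) := by
        refine hcard.trans ?_
        rw [← Real.rpow_natCast]
        apply Real.rpow_le_rpow_of_exponent_le (by norm_num)
        rw [Nat.cast_sub h3]
        push_cast
        nlinarith
      exact_mod_cast h4
    obtain ⟨hK1, hK2⟩ := hKb
    have h1 : cost 6 q n A j g (testF 6 q n A j g z) ≤ 2 ^ (n - b) + K.card * 2 ^ b := by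
      unfold cost
      rw [← hb]
      calc ∑ y ∈ range (2 ^ (n - b)),
            (if Kept 6 q n A j g (testF 6 q n A j g z) y then 2 ^ b else 1)
          ≤ ∑ y ∈ range (2 ^ (n - b)),
            (1 + if Kept 6 q n A j g (testF 6 q n A j g z) y then 2 ^ b else 0) := by
            refine sum_le_sum fun y _ => ?_
            split_ifs <;> omega
        _ = 2 ^ (n - b) + K.card * 2 ^ b := by
            rw [sum_add_distrib, sum_const, card_range, smul_eq_mul, mul_one, ← sum_filter, ← hK,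
              sum_const, smul_eq_mul]
    refine h1.trans ?_
    calc 2 ^ (n - b) + K.card * 2 ^ b ≤ 2 ^ (n - b) + 2 ^ (n - 2 * b) * 2 ^ b := by
          gcongr
      _ = 2 ^ (n - b + 1) := by
          rw [← pow_add, show n - 2 * b + b = n - b by omega, pow_succ]
          ring
  · -- minimality
    intro X' _
    have h1 := val_cut hLNK hROT G hj (bits X') (bits_le X')
    rw [← hA] at h1
    have h2 := hmc1 (SV j (bits X'))
    omega
  · -- kept
    unfold Kept
    rw [← hb]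
    apply le_of_eq
    apply testF_congr
    intro i hi _
    rw [← hb] at hi
    rw [show X / 2 ^ b * 2 ^ b = X / 2 ^ b * 2 ^ b + 0 by ring, bits_high (by positivity) hi, hz,
      ← bits_div hi]

end Pool.Agent.H60.MC
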