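import Pool.Agent.H79.MC.Targets2

/-!
Module TRI: near-regular graphs with few triangles are robust.
-/

set_option autoImplicit false

namespace Pool.Agent.H60.MC

open Finset Pool.Agent.H79.MC

namespace TRI

variable {n : ℕ}

open Classical in
/-- adjacency matrix -/
noncomputable def aa (G : SimpleGraph (Fin n)) (u v : Fin n) : ℝ := if G.Adj u v then 1 else 0

/-- bilinear form -/
noncomputable def bf (G : SimpleGraph (Fin n)) (x y : Fin n → ℝ) : ℝ :=
  ∑ u, ∑ v, aa G u v * (x u * y v)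

theorem phi_eq (G : SimpleGraph (Fin n)) (z : Fin n → ℝ) : phi G z = bf G z z := by
  unfold phi bf aa
  refine sum_congr rfl fun u _ => sum_congr rfl fun v _ => ?_
  split_ifs <;> simp

theorem aa_symm (G : SimpleGraph (Fin n)) (u v : Fin n) : aa G u v = aa G v u := by
  unfold aa
  by_cases h : G.Adj u v
  · rw [if_pos h, if_pos h.symm]
  · rw [if_neg h, if_neg (fun h2 => h h2.symm)]

theorem aa_nonneg (G : SimpleGraph (Fin n)) (u v : Fin n) : 0 ≤ aa G u v := by
  unfold aa
  split_ifs <;> norm_num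

theorem aa_self (G : SimpleGraph (Fin n)) (u : Fin n) : aa G u u = 0 := by
  unfold aa
  rw [if_neg G.irrefl]

theorem bf_symm (G : SimpleGraph (Fin n)) (x y : Fin n → ℝ) : bf G x y = bf G y x := by
  unfold bf
  rw [sum_comm]
  refine sum_congr rfl fun u _ => sum_congr rfl fun v _ => ?_
  rw [aa_symm]
  ring

theorem phi_add (G : SimpleGraph (Fin n)) (x y : Fin n → ℝ) :
    phi G (fun v => x v + y v) = phi G x + 2 * bf G x y + phi G y := by
  rw [phi_eq, phi_eq, phi_eq]
  have h1 : bf G (fun v => x v + y v) (fun v => x v + y v) =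
      bf G x x + bf G x y + bf G y x + bf G y y := by
    unfold bf
    simp only [← sum_add_distrib]
    refine sum_congr rfl fun u _ => sum_congr rfl fun v _ => ?_
    ring
  rw [h1, bf_symm G y x]
  ring

/-! ### averages -/

theorem av_add (f g : (Fin n → Bool) → ℝ) : av (fun y => f y + g y) = av f + av g := by
  unfold av
  rw [sum_add_distrib, add_div]

theorem av_const_mul (c : ℝ) (f : (Fin n → Bool) → ℝ) : av (fun y => c * f y) = c * av f := by
  unfold av
  rw [← mul_sum, mul_div_assoc]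

theorem av_sum {ι : Type*} (s : Finset ι) (f : ι → (Fin n → Bool) → ℝ) :
    av (fun y => ∑ i ∈ s, f i y) = ∑ i ∈ s, av (f i) := by
  unfold av
  rw [sum_comm, sum_div]

theorem av_const (c : ℝ) : av (fun _ : Fin n → Bool => c) = c := by
  unfold av
  rw [sum_const, card_univ, Fintype.card_fun, Fintype.card_bool, Fintype.card_fin, nsmul_eq_mul]
  push_cast
  field_simp

theorem av_ge {c : ℝ} {f : (Fin n → Bool) → ℝ} (h : ∀ y, c ≤ f y) : c ≤ av f := by
  rw [← av_const (n := n) c]
  unfold av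
  gcongr with y
  exact h y

/-! ### edges and triangles -/

theorem hand (G : SimpleGraph (Fin n)) : ∑ u, ∑ v, aa G u v = 2 * (edges G : ℝ) := by
  classical
  have h1 := G.sum_degrees_eq_twice_card_edges
  have h2 : edges G = G.edgeFinset.card := by
    unfold edges
    rw [Set.ncard_eq_toFinset_card', Set.toFinset_card, ← SimpleGraph.edgeFinset_card]
  rw [h2]
  have h3 : ((∑ v, G.degree v : ℕ) : ℝ) = 2 * (G.edgeFinset.card : ℝ) := by exact_mod_cast h1
  rw [← h3]
  push_cast
  refine sum_congr rfl fun u _ => ?_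
  unfold aa
  rw [sum_boole, ← SimpleGraph.card_neighborFinset_eq_degree]
  congr 2
  ext v
  simp

theorem deg_eq (G : SimpleGraph (Fin n)) (u : Fin n) : ∑ v, aa G u v = degr G u := by
  unfold aa degr
  rw [sum_boole]

theorem fib6 (S : Finset (Fin n)) (hS : S.card = 3) :
    (univ.filter fun p : Fin n × Fin n × Fin n => p.1 ≠ p.2.1 ∧ p.1 ≠ p.2.2 ∧ p.2.1 ≠ p.2.2 ∧
      ({p.1, p.2.1, p.2.2} : Finset (Fin n)) = S).card ≤ 6 := by
  have h1 : (univ.filter fun p : Fin n × Fin n × Fin n => p.1 ≠ p.2.1 ∧ p.1 ≠ p.2.2 ∧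
      p.2.1 ≠ p.2.2 ∧ ({p.1, p.2.1, p.2.2} : Finset (Fin n)) = S) ⊆
      S.biUnion fun u => (S.erase u).biUnion fun v =>
        ((S.erase u).erase v).image fun x => (u, v, x) := by
    rintro ⟨u, v, x⟩ hp
    rw [mem_filter] at hp
    obtain ⟨-, h2, h3, h4, rfl⟩ := hp
    simp only [ne_eq] at h2 h3 h4
    rw [mem_biUnion]
    refine ⟨u, by simp, ?_⟩
    rw [mem_biUnion]
    refine ⟨v, by simp [Ne.symm h2], ?_⟩
    rw [mem_image]
    exact ⟨x, by simp [Ne.symm h3, Ne.symm h4], rfl⟩
  refine (card_le_card h1).trans (card_biUnion_le.trans ?_)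
  calc ∑ u ∈ S, ((S.erase u).biUnion fun v => ((S.erase u).erase v).image fun x => (u, v, x)).card
      ≤ ∑ u ∈ S, 2 := by
        refine sum_le_sum fun u hu => ?_
        refine card_biUnion_le.trans ?_
        calc ∑ v ∈ S.erase u, (((S.erase u).erase v).image fun x => (u, v, x)).card
            ≤ ∑ v ∈ S.erase u, 1 := by
              refine sum_le_sum fun v hv => ?_
              refine card_image_le.trans ?_
              rw [card_erase_of_mem hv, card_erase_of_mem hu, hS]
          _ = 2 := by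
              rw [sum_const, card_erase_of_mem hu, hS]
              rfl
    _ = 6 := by
        rw [sum_const, hS]
        rfl

theorem tri_count (G : SimpleGraph (Fin n)) (N : Fin n → Finset (Fin n))
    (hN : ∀ v, ∀ u ∈ N v, G.Adj v u) :
    ∑ u, ∑ v, aa G u v * ((N u ∩ N v).card : ℝ) ≤ 6 * (triangles G : ℝ) := by
  classical
  set T := univ.filter fun p : Fin n × Fin n × Fin n =>
    G.Adj p.1 p.2.1 ∧ G.Adj p.1 p.2.2 ∧ G.Adj p.2.1 p.2.2 with hT
  have h1 : T.card ≤ 6 * (T.image fun p => ({p.1, p.2.1, p.2.2} : Finset (Fin n))).card := by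
    refine card_le_mul_card_image _ _ fun S hS => ?_
    rw [mem_image] at hS
    obtain ⟨p, hp, rfl⟩ := hS
    rw [hT, mem_filter] at hp
    obtain ⟨-, h2, h3, h4⟩ := hp
    refine le_trans (card_le_card ?_) (fib6 ({p.1, p.2.1, p.2.2} : Finset (Fin n)) ?_)
    · intro x hx
      rw [mem_filter, hT, mem_filter] at hx
      obtain ⟨⟨-, h5, h6, h7⟩, h8⟩ := hx
      rw [mem_filter]
      exact ⟨mem_univ _, h5.ne, h6.ne, h7.ne, h8⟩
    · exact card_eq_three.2 ⟨_, _, _, h2.ne, h3.ne, h4.ne, rfl⟩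
  have h2 : (T.image fun p => ({p.1, p.2.1, p.2.2} : Finset (Fin n))).card ≤ triangles G := by
    unfold triangles
    apply card_le_card
    intro S hS
    rw [mem_image] at hS
    obtain ⟨p, hp, rfl⟩ := hS
    rw [hT, mem_filter] at hp
    obtain ⟨-, h2, h3, h4⟩ := hp
    rw [SimpleGraph.mem_cliqueFinset_iff]
    exact SimpleGraph.is3Clique_triple_iff.2 ⟨h2, h3, h4⟩
  have h3 : ∑ u, ∑ v, aa G u v * ((N u ∩ N v).card : ℝ) ≤ T.card := by
    have h4 : (T.card : ℝ) = ∑ u : Fin n, ∑ v : Fin n, ∑ x : Fin n,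
        if G.Adj u v ∧ G.Adj u x ∧ G.Adj v x then (1 : ℝ) else 0 := by
      rw [hT, card_filter]
      push_cast
      rw [Fintype.sum_prod_type]
      refine sum_congr rfl fun u _ => ?_
      rw [Fintype.sum_prod_type]
    rw [h4]
    refine sum_le_sum fun u _ => sum_le_sum fun v _ => ?_
    unfold aa
    by_cases h : G.Adj u v
    · rw [if_pos h, one_mul, card_eq_sum_ones]
      push_cast
      rw [← sum_filter]
      refine sum_le_sum_of_subset_of_nonneg ?_ (fun _ _ _ => zero_le_one)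
      intro x hx
      rw [mem_inter] at hx
      rw [mem_filter]
      exact ⟨mem_univ _, h, hN u x hx.1, hN v x hx.2⟩
    · rw [if_neg h, zero_mul]
      exact sum_nonneg fun _ _ => by split_ifs <;> norm_num
  have h5 : (T.card : ℝ) ≤ 6 * (triangles G : ℝ) := by
    have : T.card ≤ 6 * triangles G := h1.trans (Nat.mul_le_mul_left _ h2)
    exact_mod_cast this
  exact h3.trans h5

/-! ### oddness -/

theorem sb_not (b : Bool) : sb (!b) = -sb b := by
  cases b <;> simp [sb]

theorem Ys_not (S : Finset (Fin n)) (y : Fin n → Bool) : Ys S (fun v => !(y v)) = -Ys S y := by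
  unfold Ys
  simp only [sb_not, sum_neg_distrib]

theorem clp_neg (x : ℝ) : clp (-x) = -clp x := by
  unfold clp
  rw [max_def, min_def, max_def, min_def]
  split_ifs <;> linarith

theorem clp_abs (x : ℝ) : |clp x| ≤ 1 := by
  unfold clp
  rw [abs_le]
  exact ⟨le_max_left _ _, max_le (by norm_num) (min_le_left _ _)⟩

/-! ### the perturbation -/

open Classical in
/-- neighbours of `v` in `B` -/
noncomputable def nb (G : SimpleGraph (Fin n)) (B : Finset (Fin n)) (v : Fin n) : Finset (Fin n) :=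
  B.filter fun u => G.Adj v u

/-- random signs on `B` -/
noncomputable def w1 (B : Finset (Fin n)) (y : Fin n → Bool) (v : Fin n) : ℝ :=
  if v ∈ B then sb (y v) / 2 else 0

/-- the response on `C` -/
noncomputable def w2 (G : SimpleGraph (Fin n)) (B C : Finset (Fin n)) (τ s : ℝ)
    (y : Fin n → Bool) (v : Fin n) : ℝ :=
  if v ∈ C then -(τ * clp (Ys (nb G B v) y / s)) else 0

theorem nb_adj (G : SimpleGraph (Fin n)) (B : Finset (Fin n)) (v u : Fin n) (h : u ∈ nb G B v) :
    G.Adj v u := by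
  unfold nb at h
  simp only [mem_filter] at h
  exact h.2

theorem nb_sum (G : SimpleGraph (Fin n)) (B : Finset (Fin n)) (v : Fin n) :
    ∑ u ∈ B, aa G u v = ((nb G B v).card : ℝ) := by
  unfold nb
  rw [card_filter]
  push_cast
  refine sum_congr rfl fun u _ => ?_
  rw [aa_symm]
  rfl

theorem nb_card (G : SimpleGraph (Fin n)) (B : Finset (Fin n)) (v : Fin n) :
    (nb G B v).card ≤ degr G v := by
  unfold nb degr
  apply card_le_card
  intro u hu
  simp only [mem_filter, mem_univ, true_and] at hu ⊢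
  exact hu.2

theorem w1_not (B : Finset (Fin n)) (y : Fin n → Bool) (v : Fin n) :
    w1 B (fun v => !(y v)) v = -w1 B y v := by
  unfold w1
  split_ifs
  · rw [sb_not]; ring
  · simp

theorem w2_not (G : SimpleGraph (Fin n)) (B C : Finset (Fin n)) (τ s : ℝ) (y : Fin n → Bool)
    (v : Fin n) : w2 G B C τ s (fun v => !(y v)) v = -w2 G B C τ s y v := by
  unfold w2
  split_ifs
  · rw [Ys_not, neg_div, clp_neg]; ring
  · simp

theorem w1w1 (hAV0 : T_AV0) (G : SimpleGraph (Fin n)) (B : Finset (Fin n)) :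
    av (fun y => bf G (w1 B y) (w1 B y)) = 0 := by
  unfold bf
  rw [av_sum]
  refine sum_eq_zero fun u _ => ?_
  rw [av_sum]
  refine sum_eq_zero fun v _ => ?_
  by_cases huv : u = v
  · subst huv
    simp only [aa_self, zero_mul]
    exact av_const 0
  · rw [av_const_mul]
    have h1 : av (fun y => w1 B y u * w1 B y v) = 0 := by
      unfold w1
      by_cases hu : u ∈ B
      · by_cases hv : v ∈ B
        · simp only [hu, hv, if_true]
          have h2 : (fun y : Fin n → Bool => sb (y u) / 2 * (sb (y v) / 2)) =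
              fun y => 1 / 4 * (sb (y u) * sb (y v)) := by
            funext y; ring
          rw [h2, av_const_mul, (hAV0 n).1 u v huv, mul_zero]
        · simp only [hv, if_false, mul_zero]
          exact av_const 0
      · simp only [hu, if_false, zero_mul]
        exact av_const 0
    rw [h1, mul_zero]

theorem w1w2 (G : SimpleGraph (Fin n)) (B C : Finset (Fin n)) (τ s : ℝ) (y : Fin n → Bool) :
    bf G (w1 B y) (w2 G B C τ s y) =
      -(τ / 2) * ∑ v ∈ C, Ys (nb G B v) y * clp (Ys (nb G B v) y / s) := by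
  classical
  unfold bf
  rw [sum_comm, mul_sum, ← sum_subset (subset_univ C) ?_]
  · refine sum_congr rfl fun v hv => ?_
    have h1 : ∑ u, aa G u v * (w1 B y u * w2 G B C τ s y v) =
        (∑ u, aa G u v * w1 B y u) * w2 G B C τ s y v := by
      rw [sum_mul]
      refine sum_congr rfl fun u _ => ?_
      ring
    have h2 : ∑ u, aa G u v * w1 B y u = Ys (nb G B v) y / 2 := by
      unfold Ys nb
      rw [sum_div, sum_filter, ← sum_subset (subset_univ B) ?_]
      · refine sum_congr rfl fun u hu => ?_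
        unfold w1
        rw [if_pos hu, aa_symm]
        unfold aa
        split_ifs <;> simp
      · intro u _ hu
        unfold w1
        rw [if_neg hu, mul_zero]
    rw [h1, h2]
    unfold w2
    rw [if_pos hv]
    ring
  · intro v _ hv
    refine sum_eq_zero fun u _ => ?_
    unfold w2
    rw [if_neg hv, mul_zero, mul_zero]

theorem w2w2 (hAV2 : T_AV2) (G : SimpleGraph (Fin n)) (B C : Finset (Fin n)) (τ s : ℝ)
    (hs : 0 < s) :
    av (fun y => bf G (w2 G B C τ s y) (w2 G B C τ s y)) ≤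
      τ ^ 2 / s ^ 2 * ∑ u, ∑ v, aa G u v * ((nb G B u ∩ nb G B v).card : ℝ) := by
  unfold bf
  rw [av_sum, mul_sum]
  refine sum_le_sum fun u _ => ?_
  rw [av_sum, mul_sum]
  refine sum_le_sum fun v _ => ?_
  rw [av_const_mul]
  have h0 : 0 ≤ τ ^ 2 / s ^ 2 * ((nb G B u ∩ nb G B v).card : ℝ) := by positivity
  have h1 : av (fun y => w2 G B C τ s y u * w2 G B C τ s y v) ≤
      τ ^ 2 / s ^ 2 * ((nb G B u ∩ nb G B v).card : ℝ) := by
    unfold w2
    by_cases hu : u ∈ C
    · by_cases hv : v ∈ C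
      · simp only [hu, hv, if_true]
        have h2 : (fun y : Fin n → Bool => -(τ * clp (Ys (nb G B u) y / s)) *
            -(τ * clp (Ys (nb G B v) y / s))) =
            fun y => τ ^ 2 * (clp (Ys (nb G B u) y / s) * clp (Ys (nb G B v) y / s)) := by
          funext y; ring
        rw [h2, av_const_mul]
        have h3 := hAV2 n (nb G B u) (nb G B v) s hs
        calc τ ^ 2 * av (fun y => clp (Ys (nb G B u) y / s) * clp (Ys (nb G B v) y / s))
            ≤ τ ^ 2 * (((nb G B u ∩ nb G B v).card : ℝ) / s ^ 2) :=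
              mul_le_mul_of_nonneg_left h3 (sq_nonneg τ)
          _ = _ := by ring
      · simp only [hv, if_false, mul_zero]
        rw [av_const 0]
        exact h0
    · simp only [hu, if_false, zero_mul]
      rw [av_const 0]
      exact h0
  calc aa G u v * av (fun y => w2 G B C τ s y u * w2 G B C τ s y v)
      ≤ aa G u v * (τ ^ 2 / s ^ 2 * ((nb G B u ∩ nb G B v).card : ℝ)) :=
        mul_le_mul_of_nonneg_left h1 (aa_nonneg G u v)
    _ = _ := by ring

theorem lin0 (hAV0 : T_AV0) (G : SimpleGraph (Fin n)) (z : Fin n → ℝ)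
    (w : (Fin n → Bool) → Fin n → ℝ) (hw : ∀ y v, w (fun v => !(y v)) v = -w y v) :
    av (fun y => bf G z (w y)) = 0 := by
  apply (hAV0 n).2.1
  intro y
  unfold bf
  rw [← sum_neg_distrib]
  refine sum_congr rfl fun u _ => ?_
  rw [← sum_neg_distrib]
  refine sum_congr rfl fun v _ => ?_
  rw [hw]
  ring

theorem gain (hAV0 : T_AV0) (hAV1 : T_AV1) (hAV2 : T_AV2) (hMUL : T_MUL)
    (G : SimpleGraph (Fin n)) (z : Fin n → ℝ) (hz : ∀ v, |z v| ≤ 1) (U B : Finset (Fin n))
    (hU : ∀ v ∈ U, |z v| ≤ 1 / 2) (hB : B ⊆ U) (τ s : ℝ) (hτ0 : 0 ≤ τ) (hτ : τ ≤ 1 / 2)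
    (hs : 0 < s) (hN : ∀ v, 6 * ((nb G B v).card : ℝ) ≤ s ^ 2) :
    2 * (edges G : ℝ) - 4 * maxCut G ≤ phi G z -
      9 / 10 * τ * ((∑ v ∈ U \ B, ((nb G B v).card : ℝ)) / s) +
        τ ^ 2 / s ^ 2 * (6 * (triangles G : ℝ)) := by
  set C := U \ B with hC
  have hb : ∀ y v, |z v + (w1 B y v + w2 G B C τ s y v)| ≤ 1 := by
    intro y v
    unfold w1 w2
    by_cases h1 : v ∈ B
    · have h2 : v ∉ C := by rw [hC, mem_sdiff]; tauto
      rw [if_pos h1, if_neg h2]
      have h3 := abs_le.1 (hU v (hB h1))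
      rw [abs_le]
      unfold sb
      split_ifs <;> constructor <;> linarith
    · by_cases h2 : v ∈ C
      · rw [if_neg h1, if_pos h2]
        have h3 := abs_le.1 (hU v ((mem_sdiff.1 h2).1))
        have h4 := abs_le.1 (clp_abs (Ys (nb G B v) y / s))
        have h5 : τ * clp (Ys (nb G B v) y / s) ≤ 1 / 2 := by nlinarith [h4.2]
        have h6 : -(1 / 2) ≤ τ * clp (Ys (nb G B v) y / s) := by nlinarith [h4.1]
        rw [abs_le]
        constructor <;> linarith
      · rw [if_neg h1, if_neg h2]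
        simpa using hz v
  have h1 : ∀ y, 2 * (edges G : ℝ) - 4 * maxCut G ≤ phi G z + 2 * bf G z (w1 B y) +
      2 * bf G z (w2 G B C τ s y) + bf G (w1 B y) (w1 B y) +
      2 * bf G (w1 B y) (w2 G B C τ s y) + bf G (w2 G B C τ s y) (w2 G B C τ s y) := by
    intro y
    have h2 := hMUL n G (fun v => z v + (w1 B y v + w2 G B C τ s y v)) (hb y)
    have h3 := phi_add G z (fun v => w1 B y v + w2 G B C τ s y v)
    have h4 := phi_add G (w1 B y) (w2 G B C τ s y)
    rw [phi_eq G (w1 B y), phi_eq G (w2 G B C τ s y)] at h4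
    have h5 : bf G z (fun v => w1 B y v + w2 G B C τ s y v) =
        bf G z (w1 B y) + bf G z (w2 G B C τ s y) := by
      unfold bf
      rw [← sum_add_distrib]
      refine sum_congr rfl fun u _ => ?_
      rw [← sum_add_distrib]
      refine sum_congr rfl fun v _ => ?_
      ring
    rw [h3, h4, h5] at h2
    linarith
  have h2 := av_ge h1
  rw [av_add, av_add, av_add, av_add, av_add, av_const, av_const_mul, av_const_mul, av_const_mul,
    lin0 hAV0 G z _ (w1_not B), lin0 hAV0 G z _ (w2_not G B C τ s), w1w1 hAV0] at h2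
  have h3 : av (fun y => bf G (w1 B y) (w2 G B C τ s y)) ≤
      -(τ / 2) * (9 / 10 * ((∑ v ∈ C, ((nb G B v).card : ℝ)) / s)) := by
    have h4 : (fun y => bf G (w1 B y) (w2 G B C τ s y)) = fun y =>
        -(τ / 2) * ∑ v ∈ C, Ys (nb G B v) y * clp (Ys (nb G B v) y / s) := by
      funext y
      exact w1w2 G B C τ s y
    rw [h4, av_const_mul, av_sum]
    have h5 : 9 / 10 * ((∑ v ∈ C, ((nb G B v).card : ℝ)) / s) ≤
        ∑ v ∈ C, av (fun y => Ys (nb G B v) y * clp (Ys (nb G B v) y / s)) := by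
      rw [sum_div, mul_sum]
      refine sum_le_sum fun v _ => ?_
      exact hAV1 n (nb G B v) s hs (hN v)
    have h6 : 0 ≤ τ / 2 := by linarith
    have h7 := mul_le_mul_of_nonneg_left h5 h6
    linarith
  have h4 := w2w2 hAV2 G B C τ s hs
  have h5 := tri_count G (nb G B) (nb_adj G B)
  have h6 : τ ^ 2 / s ^ 2 * ∑ u, ∑ v, aa G u v * ((nb G B u ∩ nb G B v).card : ℝ) ≤
      τ ^ 2 / s ^ 2 * (6 * (triangles G : ℝ)) :=
    mul_le_mul_of_nonneg_left h5 (by positivity)
  linarith

/-! ### the part of the graph on which `z` is small -/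

theorem inner (G : SimpleGraph (Fin n)) (U : Finset (Fin n)) (D : ℝ)
    (hD : ∀ v, (degr G v : ℝ) ≤ D) :
    2 * (edges G : ℝ) - 2 * ((Uᶜ.card : ℝ) * D) ≤ ∑ u ∈ U, ∑ v ∈ U, aa G u v := by
  have h1 : ∀ W : Finset (Fin n), ∑ u ∈ Uᶜ, ∑ v ∈ W, aa G u v ≤ (Uᶜ.card : ℝ) * D := by
    intro W
    calc ∑ u ∈ Uᶜ, ∑ v ∈ W, aa G u v ≤ ∑ u ∈ Uᶜ, D := by
          refine sum_le_sum fun u _ => ?_
          calc ∑ v ∈ W, aa G u v ≤ ∑ v, aa G u v :=
                sum_le_sum_of_subset_of_nonneg (subset_univ W) (fun v _ _ => aa_nonneg G u v)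
            _ ≤ D := by rw [deg_eq]; exact hD u
      _ = (Uᶜ.card : ℝ) * D := by rw [sum_const, nsmul_eq_mul]
  have h2 := hand G
  rw [← sum_add_sum_compl U] at h2
  have h3 : ∑ u ∈ U, ∑ v, aa G u v = ∑ u ∈ U, ∑ v ∈ U, aa G u v + ∑ u ∈ U, ∑ v ∈ Uᶜ, aa G u v := by
    rw [← sum_add_distrib]
    refine sum_congr rfl fun u _ => ?_
    rw [sum_add_sum_compl U]
  have h4 : ∑ u ∈ U, ∑ v ∈ Uᶜ, aa G u v = ∑ u ∈ Uᶜ, ∑ v ∈ U, aa G u v := by
    rw [sum_comm]
    refine sum_congr rfl fun u _ => sum_congr rfl fun v _ => ?_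
    rw [aa_symm]
  have h5 := h1 U
  have h6 := h1 univ
  linarith

theorem big_card (z : Fin n → ℝ) (κ : ℝ) (h : ∑ v, z v ^ 2 ≤ κ * n) :
    (((univ.filter fun v => |z v| ≤ 1 / 2)ᶜ : Finset (Fin n)).card : ℝ) ≤ 4 * κ * n := by
  set U := univ.filter fun v => |z v| ≤ 1 / 2 with hU
  have h1 : (Uᶜ.card : ℝ) * (1 / 4) ≤ ∑ v, z v ^ 2 := by
    calc (Uᶜ.card : ℝ) * (1 / 4) = ∑ v ∈ Uᶜ, (1 / 4 : ℝ) := by rw [sum_const, nsmul_eq_mul]
      _ ≤ ∑ v ∈ Uᶜ, z v ^ 2 := by
          refine sum_le_sum fun v hv => ?_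
          rw [hU, mem_compl, mem_filter] at hv
          have h2 : 1 / 2 < |z v| := by
            by_contra h3
            exact hv ⟨mem_univ _, not_lt.1 h3⟩
          rw [← sq_abs]
          nlinarith
      _ ≤ ∑ v, z v ^ 2 := sum_le_sum_of_subset_of_nonneg (subset_univ _) (fun v _ _ => sq_nonneg _)
  linarith

end TRI

open TRI in
theorem pf_tri (hAV0 : T_AV0) (hAV1 : T_AV1) (hAV2 : T_AV2) (hHLF : T_HLF) (hMUL : T_MUL) :
    T_TRI := by
  intro K hK
  have hK0 : 0 < K := by linarith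
  refine ⟨1 / (1920 * K), by positivity, ?_⟩
  intro n G hm hreg htri z hz hz2
  have hm1 : (1 : ℝ) ≤ edges G := by exact_mod_cast hm
  have hn : 0 < n := by
    rcases Nat.eq_zero_or_pos n with h | h
    · exfalso
      subst h
      have h2 := hand G
      simp at h2
      linarith
    · exact h
  have hn0 : (0 : ℝ) < n := by exact_mod_cast hn
  set m : ℝ := (edges G : ℝ) with hmdef
  set d : ℝ := 2 * m / n with hd
  have hd0 : 0 < d := by positivity
  have hdn : n * d = 2 * m := by rw [hd]; field_simp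
  set r : ℝ := Real.sqrt d with hr
  have hr0 : 0 < r := Real.sqrt_pos.2 hd0
  have hr2 : r ^ 2 = d := Real.sq_sqrt hd0.le
  set q : ℝ := Real.sqrt (6 * K) with hq
  have hq0 : 0 < q := Real.sqrt_pos.2 (by positivity)
  have hq2 : q ^ 2 = 6 * K := Real.sq_sqrt (by positivity)
  have hq1 : 1 ≤ q := by
    rw [hq]
    apply Real.one_le_sqrt.2
    linarith
  have hdeg : ∀ v, (degr G v : ℝ) ≤ K * d := by
    intro v
    have h1 := hreg v
    have h2 : (degr G v : ℝ) * n ≤ K * d * n := by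
      calc (degr G v : ℝ) * n ≤ K * (2 * m) := h1
        _ = K * d * n := by rw [← hdn]; ring
    exact le_of_mul_le_mul_right h2 hn0
  set U := univ.filter fun v => |z v| ≤ 1 / 2 with hU
  have hbig := big_card z _ hz2
  rw [← hU] at hbig
  have hin := inner G U (K * d) hdeg
  have h1 : (Uᶜ.card : ℝ) * (K * d) ≤ m / 240 := by
    calc (Uᶜ.card : ℝ) * (K * d) ≤ 4 * (1 / (1920 * K)) * n * (K * d) :=
          mul_le_mul_of_nonneg_right hbig (by positivity)
      _ = n * d / 480 := by field_simp; ring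
      _ = m / 240 := by rw [hdn]; ring
  have h2 : m ≤ ∑ u ∈ U, ∑ v ∈ U, aa G u v := by linarith
  obtain ⟨B, hB, hBe⟩ := hHLF n U (aa G) (aa_nonneg G) (aa_self G) (aa_symm G)
  have h3 : m / 4 ≤ ∑ v ∈ U \ B, ((nb G B v).card : ℝ) := by
    have h4 : ∑ u ∈ B, ∑ v ∈ U \ B, aa G u v = ∑ v ∈ U \ B, ((nb G B v).card : ℝ) := by
      rw [sum_comm]
      refine sum_congr rfl fun v _ => ?_
      exact nb_sum G B v
    rw [← h4]
    linarith
  have hτ : 1 / (20 * q) ≤ 1 / 2 := by
    apply one_div_le_one_div_of_le (by norm_num)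
    linarith
  have hs0 : 0 < q * r := by positivity
  have hs2 : (q * r) ^ 2 = 6 * K * d := by rw [mul_pow, hq2, hr2]
  have hN : ∀ v, 6 * ((nb G B v).card : ℝ) ≤ (q * r) ^ 2 := by
    intro v
    have h5 : ((nb G B v).card : ℝ) ≤ degr G v := by exact_mod_cast nb_card G B v
    have h6 := hdeg v
    rw [hs2]
    linarith
  have hg := gain hAV0 hAV1 hAV2 hMUL G z hz U B (fun v hv => by
    rw [hU, mem_filter] at hv; exact hv.2) hB (1 / (20 * q)) (q * r) (by positivity) hτ hs0 hN
  -- the triangles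
  have hT : (1 / (20 * q)) ^ 2 / (q * r) ^ 2 * (6 * (triangles G : ℝ)) ≤ n * r / (2400 * K) := by
    have h5 : d ^ ((3 : ℝ) / 2) = d * r := by
      rw [hr, Real.sqrt_eq_rpow]
      have : (3 : ℝ) / 2 = 1 + 1 / 2 := by norm_num
      rw [this, Real.rpow_add hd0, Real.rpow_one]
    rw [h5] at htri
    have h6 : (1 / (20 * q)) ^ 2 / (q * r) ^ 2 = 1 / (400 * (6 * K) * (6 * K * d)) := by
      rw [hs2, div_pow, mul_pow, hq2]
      field_simp
      ring
    rw [h6]
    calc 1 / (400 * (6 * K) * (6 * K * d)) * (6 * (triangles G : ℝ))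
        ≤ 1 / (400 * (6 * K) * (6 * K * d)) * (6 * (K * n * (d * r))) := by
          apply mul_le_mul_of_nonneg_left _ (by positivity)
          linarith
      _ = n * r / (2400 * K) := by field_simp; ring
  -- the gain
  have hG : 9 / 10 * (1 / (20 * q)) * ((m / 4) / (q * r)) = 9 / 1600 * (n * r / (6 * K)) := by
    have h5 : m = n * r ^ 2 / 2 := by rw [hr2]; linarith
    rw [h5, ← hq2]
    field_simp
    ring
  have hG2 : 9 / 10 * (1 / (20 * q)) * ((m / 4) / (q * r)) ≤
      9 / 10 * (1 / (20 * q)) * ((∑ v ∈ U \ B, ((nb G B v).card : ℝ)) / (q * r)) := by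
    gcongr
  have hsq : Real.sqrt (m * n) ≤ n * r := by
    apply Real.sqrt_le_iff.2
    refine ⟨by positivity, ?_⟩
    rw [mul_pow, hr2]
    nlinarith
  have hk : 1 / (1920 * K) * Real.sqrt (m * n) ≤ 1 / (1920 * K) * (n * r) :=
    mul_le_mul_of_nonneg_left hsq (by positivity)
  have hfin : 9 / 1600 * (n * r / (6 * K)) - n * r / (2400 * K) = 1 / (1920 * K) * (n * r) := by
    field_simp
    ring
  linarith

end Pool.Agent.H60.MC
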